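import Pool.Agent.Y320.ST.Stm
import Pool.Agent.Y37.CM.Nhd
import Pool.Agent.Y587.CM.Ray
import Pool.Agent.Y145.CM.Attr

/-!
# Project ST: the boundary action is a convergence action (S_CVG)
-/

set_option autoImplicit false
open Filter Topology

namespace Pool.Agent.Y438.ST

open Pool.Agent.Y320.CM Pool.Agent.Y320.ST Pool.Agent.Y145.CM

/-- uniform attraction along an ultrafilter -/
theorem attrU (hN : S_NHD) (hA : S_ACTC) (G : Type) [Group G] (d : G → G → ℝ) (δ : ℝ)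
    (φ : (ℕ → G) → Sph) (τ : G → Sph → Sph) (h : HypD G d δ) (hB : Bd d φ) (hE : Eqv d φ τ)
    (𝓦 : Ultrafilter G) (y z : ℕ → G) (hW : (𝓦 : Filter G) ≤ cofinite) (hy : CI d y)
    (hz : CI d z) (hWy : Conv d 𝓦 y) (hWz : Conv d (𝓦.map (fun g => g⁻¹)) z)
    (U : Set Sph) (hU : U ∈ 𝓝 (φ y)) (W : Set Sph) (hW' : W ∈ 𝓝 (φ z)) :
    ∀ᶠ g in (𝓦 : Filter G), ∀ p, p ∉ W → τ g p ∈ U := by
  obtain ⟨K0, hK0⟩ := (hN G d δ φ h hB z hz).2 W hW'
  obtain ⟨K, hK⟩ := (hN G d δ φ h hB y hy).2 U hU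
  have hd := h.nonneg
  have h3 : ∀ᶠ g in (𝓦 : Filter G), ∃ M' : ℕ, ∀ j, M' ≤ j → K0 + 3 * δ + 1 ≤ gp d 1 g⁻¹ (z j) :=
    hWz (K0 + 3 * δ + 1)
  filter_upwards [h3, ev_large h hW (K + δ + K0 + 3 * δ), hWy (K + δ)] with g ⟨M', hM'⟩ h5 ⟨M2, h6⟩
    p hp
  obtain ⟨x, hx, rfl⟩ := hB.surj p
  have hnear : ¬ Near d K0 x z := fun hc => hp (hK0 x hx hc)
  obtain ⟨M, hM⟩ := bounded h hx hz hnear
  have h4 : ∀ i, M ≤ i → gp d 1 (x i) g⁻¹ ≤ K0 + 3 * δ := by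
    intro i hi
    by_contra hc
    rw [not_le] at hc
    have h4 := hM' (max M M') (le_max_right _ _)
    have h5 := hM i (max M M') hi (le_max_left _ _)
    have h6 : K0 + 3 * δ - δ < gp d 1 (x i) (z (max M M')) := hyp2' h hc (by linarith)
    linarith
  rw [hE g x hx]
  refine hK _ ((hA G d δ φ τ h hB hE).1 g x hx) ⟨max M M2, fun i j hi hj => ?_⟩
  have h7 := h4 i (by omega)
  have h8 := h6 j (by omega)
  have h9 := gp_mul h g (x i)
  have h10 : K + δ - δ ≤ gp d 1 (g * x i) (y j) := hyp2 h (y := g) (by linarith) h8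
  linarith

theorem t_CVG' (hN : S_NHD) (hA : S_ACTC) (hL : S_LIMPT) : S_CVG := by
  intro G _ d δ φ τ h hB hE g hg
  set V : Ultrafilter ℕ := Ultrafilter.of atTop with hV
  have hVle : (V : Filter ℕ) ≤ atTop := Ultrafilter.of_le _
  set 𝓦 : Ultrafilter G := V.map g with hWdef
  have hW : (𝓦 : Filter G) ≤ cofinite := by
    rw [hWdef, Ultrafilter.coe_map]
    exact (Filter.map_mono hVle).trans hg
  have hinv : Function.Injective (fun g : G => g⁻¹) := inv_injective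
  have hWi : ((𝓦.map (fun g => g⁻¹) : Ultrafilter G) : Filter G) ≤ cofinite := by
    rw [Ultrafilter.coe_map]
    exact (Filter.map_mono hW).trans hinv.tendsto_cofinite
  obtain ⟨y, hy, hWy⟩ := hL G d δ h 𝓦 hW
  obtain ⟨z, hz, hWz⟩ := hL G d δ h _ hWi
  obtain ⟨BU, hBU⟩ := (𝓝 (φ y)).exists_antitone_basis
  obtain ⟨BW, hBW⟩ := (𝓝 (φ z)).exists_antitone_basis
  have hfreq : ∀ n : ℕ, ∃ᶠ m in atTop, ∀ p, p ∉ BW n → τ (g m) p ∈ BU n := by
    intro n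
    have h1 := attrU hN hA G d δ φ τ h hB hE 𝓦 y z hW hy hz hWy hWz (BU n)
      (hBU.1.mem_of_mem trivial) (BW n) (hBW.1.mem_of_mem trivial)
    have h2 : ∀ᶠ m in (V : Filter ℕ), ∀ p, p ∉ BW n → τ (g m) p ∈ BU n := h1
    exact (h2.frequently).filter_mono hVle
  obtain ⟨k, hk, hkP⟩ := extraction_forall_of_frequently hfreq
  refine ⟨k, hk, φ y, φ z, fun U hU W hW' => ?_⟩
  obtain ⟨n1, -, hn1⟩ := hBU.1.mem_iff.1 hU
  obtain ⟨n2, -, hn2⟩ := hBW.1.mem_iff.1 hW'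
  filter_upwards [eventually_ge_atTop (max n1 n2)] with n hn x hx
  have a1 : BU n ⊆ U := (hBU.2 (by omega)).trans hn1
  have a2 : BW n ⊆ W := (hBW.2 (by omega)).trans hn2
  exact a1 (hkP n x fun hc => hx (a2 hc))

/-- ST-CVG -/
theorem t_CVG : S_CVG :=
  t_CVG' Pool.Agent.Y37.CM.t_NHD Pool.Agent.Y37.CM.t_ACTC Pool.Agent.Y587.CM.t_LIMPT

end Pool.Agent.Y438.ST
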